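import Pool.Agent.H809_TA.Assembly
import Pool.Agent.H809_TA.PlaneEvery
import Pool.Agent.H809_TA.Defs

/-!
# Ordering the unordered triple arrays of the projective spaces

An extremal unordered triple array `(R, C)` is the same thing as a symmetric design with a
distinguished block. Every extremal unordered triple array with replication number `e > 2` whose
symmetric design is the design of points and hyperplanes of a projective space `PG(n, K)` over a
finite field `K` (any `n`, any `K`, any distinguished block), and the transpose of every such array,
can be ordered into a triple array. The proof is in the library folder `Pool.Agent.H809_TA`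
(`hasArr_of_classical`).
-/

set_option autoImplicit false

namespace Pool.Agent.Results.MP_9dc2ba_co.ClassicalDesigns

open Pool.Agent.H809_TA

theorem result : ∀ (r c e : ℕ) (R : Fin r → Finset (Fin (r + c - 1)))
    (C : Fin c → Finset (Fin (r + c - 1))), IsUTA R C e → 2 < e →
    (IsClassical R C ∨ IsClassical C R) →
    ∃ T : Fin r → Fin c → Fin (r + c - 1),
      IsTripleArray T ∧ (∀ i, rowSet T i = R i) ∧ ∀ j, colSet T j = C j := by
  intro r c e R C hU he h
  have hA : HasArr R C := by
    rcases h with h | h
    · exact hasArr_of_classical hU he h
    · exact (hasArr_of_classical hU.symm' he h).symm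
  obtain ⟨T, h1, h2, h3, h4⟩ := hA
  exact ⟨T, order_of_array hU T h1 h2 h3 h4⟩

end Pool.Agent.Results.MP_9dc2ba_co.ClassicalDesigns
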